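import Pool.Agent.K4H67.QW.Acts
import Pool.Agent.K4H97.QP.Defs

/-!
# Comparison with the definitions of `K4H67/QW`
-/

set_option autoImplicit false

namespace Pool.Agent.K4H97.QP

open Matrix Module

noncomputable section

universe u w

variable {k : Type} [Field k] {X : ChowPowers.{u} k}

/-- The same data. -/
def toQW (_hX : X.IsChow) : K4H67.QW.ChowPowers.{u} k where
  ι := X.ι
  fin := X.fin
  dec := X.dec
  deg := X.deg
  q := X.q
  one := X.one
  pt := X.pt
  Corr := X.Corr
  addCommGroup := X.addCommGroup
  module := X.module
  comp := X.comp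
  diag := X.diag
  cl := X.cl

theorem isChow (hX : X.IsChow) : (toQW hX).IsChow where
  add_comp {a b c} x x' y := (hX.linear.left a b c y).map_add x x'
  comp_add {a b c} x y y' := (hX.linear.right a b c x).map_add y y'
  smul_comp {a b c} r x y := (hX.linear.left a b c y).map_smul r x
  comp_smul {a b c} r x y := (hX.linear.right a b c x).map_smul r y
  cl_add {a c} x y := (hX.linear.classes a c).map_add x y
  cl_smul {a c} r x := (hX.linear.classes a c).map_smul r x
  comp_assoc := hX.category.assoc
  diag_comp := hX.category.diag_comp
  comp_diag := hX.category.comp_diag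
  cl_comp := hX.category.cl_comp
  cl_diag := hX.category.cl_diag
  exterior := hX.classes.exterior
  unit := hX.classes.unit
  point := hX.classes.point
  form := hX.classes.form
  diagonalClass := hX.classes.diagonal
  symmetry := hX.classes.symmetry
  det_ne := hX.poincare.det_ne
  symm := hX.poincare.symm
  pairing := hX.poincare.pairing
  even := hX.poincare.even

theorem pow_eq (hX : X.IsChow) {a : ℕ} (x : X.Corr a a) (r : ℕ) :
    (toQW hX).pow x r = X.pow x r := by
  induction r with
  | zero => rfl
  | succ r ih =>
    show X.comp x ((toQW hX).pow x r) = X.comp x (X.pow x r)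
    rw [ih]

theorem nilpotence (hX : X.IsChow) (hK : X.Nilpotence) : (toQW hX).Nilpotence := by
  intro a x hx
  obtain ⟨r, hr⟩ := hK a x hx
  exact ⟨r, by rw [pow_eq]; exact hr⟩

theorem numIsHom (hX : X.IsChow) (hN : X.NumIsHom) : (toQW hX).NumIsHom := hN

theorem classDim_eq (hX : X.IsChow) (m : ℕ) : (toQW hX).classDim m = X.classDim m := rfl

end

end Pool.Agent.K4H97.QP
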